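import Pool.Agent.Work.MP_db9399_dp.Interface

/-!
# MP_db9399, DENSE-ALL, part PRE: block HALLT (owner helper29)
-/

set_option autoImplicit false

namespace Pool.Agent.Work.MP_db9399_dp_helper29

open Finset Classical
open Pool.Agent.Work.MP_db9399_dp

universe u

theorem stmt_HALLT : Stmt_HALLT.{u} := by
  intro ι 𝒯 _ _ al ρ e S n hrep hsum hU
  have hall : ∀ s : Finset (Σ T : 𝒯, Fin (n T)),
      s.card ≤ (s.biUnion (fun x => S.filter (fun i => al i x.1))).card := by
    intro s
    rcases s.eq_empty_or_nonempty with rfl | hne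
    · simp
    set U : Finset 𝒯 := s.image Sigma.fst with hUdef
    have hUne : U.Nonempty := hne.image _
    have hunion : s.biUnion (fun x => S.filter (fun i => al i x.1)) =
        S.filter (fun i => ∃ T ∈ U, al i T) := by
      ext i
      simp only [mem_biUnion, mem_filter, hUdef, mem_image, exists_exists_and_eq_and]
      constructor
      · rintro ⟨x, hx, hiS, hal⟩
        exact ⟨hiS, x, hx, hal⟩
      · rintro ⟨hiS, x, hx, hal⟩
        exact ⟨x, hx, hiS, hal⟩
    have hscard : s.card ≤ ∑ T ∈ U, n T := by
      calc s.card ≤ (U.sigma (fun T => (univ : Finset (Fin (n T))))).card := by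
            apply card_le_card
            intro x hx
            rw [mem_sigma]
            exact ⟨mem_image_of_mem _ hx, mem_univ _⟩
        _ = ∑ T ∈ U, n T := by
            rw [card_sigma]
            simp
    rw [hunion]
    rcases hrep U hUne with h | h
    · have : S.filter (fun i => ∃ T ∈ U, al i T) = S := by
        rw [filter_eq_self]
        exact h
      rw [this, ← hsum]
      exact hscard.trans (sum_le_sum_of_subset (subset_univ U))
    · have h1 : ((∑ T ∈ U, n T : ℕ) : ℝ) ≤ ((S.filter (fun i => ∃ T ∈ U, al i T)).card : ℝ) := by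
        push_cast
        exact (hU U).trans h
      exact hscard.trans (by exact_mod_cast h1)
  obtain ⟨f, hinj, hf⟩ :=
    (Finset.all_card_le_biUnion_card_iff_exists_injective
      (fun x : (Σ T : 𝒯, Fin (n T)) => S.filter (fun i => al i x.1))).1 hall
  have hfS : ∀ x, f x ∈ S := fun x => (mem_filter.1 (hf x)).1
  have hfal : ∀ x, al (f x) x.1 := fun x => (mem_filter.1 (hf x)).2
  have himg : (univ : Finset (Σ T : 𝒯, Fin (n T))).image f = S := by
    apply eq_of_subset_of_card_le
    · intro i hi
      obtain ⟨x, _, rfl⟩ := mem_image.1 hi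
      exact hfS x
    · rw [card_image_of_injective _ hinj, card_univ, Fintype.card_sigma, ← hsum]
      simp
  have hsurj : ∀ i ∈ S, ∃ x, f x = i := by
    intro i hi
    rw [← himg] at hi
    obtain ⟨x, _, hx⟩ := mem_image.1 hi
    exact ⟨x, hx⟩
  let τ : ι → 𝒯 := fun i => if h : ∃ x, f x = i then (Classical.choose h).1 else Classical.arbitrary 𝒯
  have hτ : ∀ x, τ (f x) = x.1 := by
    intro x
    have h : ∃ y, f y = f x := ⟨x, rfl⟩
    have h2 : Classical.choose h = x := hinj (Classical.choose_spec h)
    simp only [τ, dif_pos h, h2]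
  refine ⟨τ, ?_, ?_⟩
  · intro i hi
    obtain ⟨x, rfl⟩ := hsurj i hi
    rw [hτ]
    exact hfal x
  · intro T
    have hset : S.filter (fun i => τ i = T) =
        (univ : Finset (Fin (n T))).image (fun j => f ⟨T, j⟩) := by
      ext i
      simp only [mem_filter, mem_image, mem_univ, true_and]
      constructor
      · rintro ⟨hi, hT⟩
        obtain ⟨x, rfl⟩ := hsurj i hi
        rw [hτ] at hT
        subst hT
        exact ⟨x.2, rfl⟩
      · rintro ⟨j, rfl⟩
        exact ⟨hfS _, hτ _⟩
    rw [hset, card_image_of_injective]
    · simp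
    · intro j j' hjj
      have := hinj hjj
      simpa using this

end Pool.Agent.Work.MP_db9399_dp_helper29
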