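import Pool.Agent.Work.MP_db9399_dp.Interface

/-!
# MP_db9399, DENSE-ALL, part PRE: block RK1 (owner helper29)
-/

set_option autoImplicit false

namespace Pool.Agent.Work.MP_db9399_dp_helper29

open Finset Classical
open Pool.Agent.Work.MP_db9399_dp

/-- apportionment -/
theorem apportion {I : Type*} [Fintype I] (y : I → ℝ) (r : I → ℕ) (s : ℕ)
    (hy : ∀ A, 0 ≤ y A) (hyr : ∀ A, y A ≤ r A) (hs : ∑ A, y A = s) :
    ∃ x : I → ℕ, ∑ A, x A = s ∧ (∀ A, |(x A : ℝ) - y A| ≤ 1) ∧ ∀ A, x A ≤ r A := by
  set f : I → ℕ := fun A => ⌊y A⌋₊ with hf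
  have hfl : ∀ A, (f A : ℝ) ≤ y A := fun A => Nat.floor_le (hy A)
  have hfu : ∀ A, y A < (f A : ℝ) + 1 := fun A => Nat.lt_floor_add_one (y A)
  set Q0 : Finset I := univ.filter (fun A => (f A : ℝ) < y A) with hQ0
  have h1 : ∑ A, f A ≤ s := by
    have : ((∑ A, f A : ℕ) : ℝ) ≤ s := by
      rw [← hs]; push_cast
      exact sum_le_sum fun A _ => hfl A
    exact_mod_cast this
  have h2 : s ≤ ∑ A, f A + Q0.card := by
    have : (s : ℝ) ≤ ((∑ A, f A + Q0.card : ℕ) : ℝ) := by
      rw [← hs]; push_cast
      rw [hQ0, card_filter]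
      push_cast
      rw [← sum_add_distrib]
      apply sum_le_sum
      intro A _
      by_cases h : (f A : ℝ) < y A
      · rw [if_pos h]; exact (hfu A).le
      · rw [if_neg h]; rw [not_lt] at h; linarith
    exact_mod_cast this
  obtain ⟨Q, hQ, hQc⟩ := exists_subset_card_eq (s := Q0) (n := s - ∑ A, f A) (by omega)
  refine ⟨fun A => f A + if A ∈ Q then 1 else 0, ?_, ?_, ?_⟩
  · rw [sum_add_distrib]
    have : ∑ A, (if A ∈ Q then 1 else 0) = Q.card := by
      simp
    rw [this, hQc]
    omega
  · intro A
    have a := hfl A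
    have b := hfu A
    by_cases h : A ∈ Q
    · simp only [h, if_true]; push_cast
      rw [abs_le]; constructor <;> linarith
    · simp only [h, if_false]; push_cast
      rw [abs_le]; constructor <;> linarith
  · intro A
    have a := hfl A
    have c := hyr A
    by_cases h : A ∈ Q
    · simp only [h, if_true]
      have h3 : (f A : ℝ) < y A := (mem_filter.1 (hQ h)).2
      have : (f A : ℝ) < r A := lt_of_lt_of_le h3 c
      have : f A < r A := by exact_mod_cast this
      omega
    · simp only [h, if_false, add_zero]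
      have : (f A : ℝ) ≤ r A := a.trans c
      exact_mod_cast this

theorem rk_aux {I 𝒯 : Type} [Fintype I] (s : 𝒯 → ℕ) (ρ : I → ℝ) (F : Finset 𝒯) :
    ∀ (r : I → ℕ) (K : ℝ), 0 ≤ K → ∑ A, r A = ∑ T ∈ F, s T →
      (∀ A, |(r A : ℝ) - ρ A * (∑ T ∈ F, s T : ℕ)| ≤ K) →
      ∃ n : I → 𝒯 → ℕ, (∀ A, ∑ T ∈ F, n A T = r A) ∧ (∀ T ∈ F, ∑ A, n A T = s T) ∧
        ∀ A, ∀ T ∈ F, |(n A T : ℝ) - ρ A * s T| ≤ K + F.card := by
  induction F using Finset.induction_on with
  | empty =>
    intro r K hK hr hρ
    refine ⟨fun _ _ => 0, ?_, ?_, ?_⟩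
    · intro A
      rw [sum_empty] at hr ⊢
      rw [sum_eq_zero_iff] at hr
      exact (hr A (mem_univ A)).symm
    · intro T hT; exact absurd hT (notMem_empty T)
    · intro A T hT; exact absurd hT (notMem_empty T)
  | insert T F hTF ih =>
    intro r K hK hr hρ
    rw [sum_insert hTF] at hr
    set N' : ℕ := ∑ T ∈ F, s T with hN'
    rcases Nat.eq_zero_or_pos (s T + N') with h0 | hpos
    · -- everything is zero
      have hsT : s T = 0 := by omega
      have hN0 : N' = 0 := by omega
      have hr0 : ∀ A, r A = 0 := by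
        rw [h0, sum_eq_zero_iff] at hr
        exact fun A => hr A (mem_univ A)
      have hs0 : ∀ T' ∈ F, s T' = 0 := by
        rw [hN', sum_eq_zero_iff] at hN0
        exact hN0
      have hs0' : ∀ T' ∈ insert T F, s T' = 0 := by
        intro T' hT'
        rcases mem_insert.1 hT' with rfl | h
        · exact hsT
        · exact hs0 T' h
      refine ⟨fun _ _ => 0, ?_, ?_, ?_⟩
      · intro A; simp [hr0 A]
      · intro T' hT'; simp [hs0' T' hT']
      · intro A T' hT'
        rw [hs0' T' hT']
        simp
        positivity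
    · have hNr : (0 : ℝ) < ((s T + N' : ℕ) : ℝ) := by exact_mod_cast hpos
      set N : ℝ := ((s T + N' : ℕ) : ℝ) with hN
      have hNsum : N = s T + N' := by rw [hN]; push_cast; ring
      have hsTN : (s T : ℝ) ≤ N := by rw [hNsum]; linarith [Nat.cast_nonneg (α := ℝ) N']
      have hsT0 : (0 : ℝ) ≤ s T := Nat.cast_nonneg _
      obtain ⟨x, hxs, hxy, hxr⟩ := apportion (fun A => (r A : ℝ) * s T / N) r (s T)
        (fun A => by positivity)
        (fun A => by
          rw [div_le_iff₀ hNr]
          exact mul_le_mul_of_nonneg_left hsTN (Nat.cast_nonneg _))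
        (by
          rw [← sum_div, ← sum_mul]
          rw [div_eq_iff hNr.ne']
          have : ∑ A, (r A : ℝ) = N := by
            rw [hN, ← hr]; push_cast; rfl
          rw [this]; ring)
      have hρ' : ∀ A, |(r A : ℝ) - ρ A * N| ≤ K := by
        intro A
        have := hρ A
        rw [sum_insert hTF] at this
        exact this
      obtain ⟨n, hn1, hn2, hn3⟩ := ih (fun A => r A - x A) (K + 1) (by linarith)
        (by
          have h4 : ∑ A, (r A - x A) + ∑ A, x A = ∑ A, r A := by
            rw [← sum_add_distrib]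
            exact sum_congr rfl fun A _ => Nat.sub_add_cancel (hxr A)
          omega)
        (by
          intro A
          rw [Nat.cast_sub (hxr A)]
          have h5 := hxy A
          have h6 := hρ' A
          have h7 : (r A : ℝ) - x A - ρ A * (N' : ℝ) =
              ((r A : ℝ) - ρ A * N) * ((N' : ℝ) / N) - ((x A : ℝ) - (r A : ℝ) * s T / N) := by
            field_simp
            rw [hNsum]
            ring
          rw [h7]
          have h8 : 0 ≤ (N' : ℝ) / N := by positivity
          have h9 : (N' : ℝ) / N ≤ 1 := by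
            rw [div_le_one hNr, hNsum]; linarith
          calc _ ≤ |((r A : ℝ) - ρ A * N) * ((N' : ℝ) / N)| + |(x A : ℝ) - (r A : ℝ) * s T / N| :=
                abs_sub _ _
            _ ≤ K * 1 + 1 := by
                rw [abs_mul, abs_of_nonneg h8]
                gcongr
            _ = K + 1 := by ring)
      refine ⟨fun A T' => if T' = T then x A else n A T', ?_, ?_, ?_⟩
      · intro A
        rw [sum_insert hTF]
        change (if T = T then x A else n A T) +
          ∑ T' ∈ F, (if T' = T then x A else n A T') = r A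
        rw [if_pos rfl]
        have : ∑ T' ∈ F, (if T' = T then x A else n A T') = r A - x A := by
          rw [← hn1 A]
          apply sum_congr rfl
          intro T' hT'
          rw [if_neg]
          rintro rfl
          exact hTF hT'
        rw [this]
        have := hxr A
        omega
      · intro T' hT'
        rcases mem_insert.1 hT' with rfl | h
        · simp only [if_true]; exact hxs
        · have : T' ≠ T := by rintro rfl; exact hTF h
          simp only [this, if_false]
          exact hn2 T' h
      · intro A T' hT'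
        rw [card_insert_of_notMem hTF]
        push_cast
        rcases mem_insert.1 hT' with rfl | h
        · simp only [if_true]
          have h5 := hxy A
          have h6 := hρ' A
          have h7 : (x A : ℝ) - ρ A * s T' =
              ((r A : ℝ) - ρ A * N) * ((s T' : ℝ) / N) + ((x A : ℝ) - (r A : ℝ) * s T' / N) := by
            field_simp
            ring
          rw [h7]
          have h8 : 0 ≤ (s T' : ℝ) / N := by positivity
          have h9 : (s T' : ℝ) / N ≤ 1 := by
            rw [div_le_one hNr]; exact hsTN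
          calc _ ≤ |((r A : ℝ) - ρ A * N) * ((s T' : ℝ) / N)| + |(x A : ℝ) - (r A : ℝ) * s T' / N| :=
                abs_add_le _ _
            _ ≤ K * 1 + 1 := by
                rw [abs_mul, abs_of_nonneg h8]
                gcongr
            _ ≤ K + (F.card + 1) := by
                have : (0 : ℝ) ≤ F.card := Nat.cast_nonneg _
                linarith
        · have h10 : T' ≠ T := by rintro rfl; exact hTF h
          simp only [h10, if_false]
          have := hn3 A T' h
          linarith

theorem stmt_RK1 : Stmt_RK1 := by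
  intro I 𝒯 _ _ r s hrs
  rcases Nat.eq_zero_or_pos (∑ A, r A) with h0 | hpos
  · have hr0 : ∀ A, r A = 0 := by
      rw [sum_eq_zero_iff] at h0
      exact fun A => h0 A (mem_univ A)
    have hs0 : ∀ T, s T = 0 := by
      rw [hrs, sum_eq_zero_iff] at h0
      exact fun T => h0 T (mem_univ T)
    refine ⟨fun _ _ => 0, ?_, ?_, ?_⟩
    · intro A; simp [hr0 A]
    · intro T; simp [hs0 T]
    · intro A T
      have h1 : (∑ A, r A) = 0 := sum_eq_zero fun A _ => hr0 A
      rw [h1, hr0 A]
      simp
  · have hN : (0 : ℝ) < ((∑ A, r A : ℕ) : ℝ) := by exact_mod_cast hpos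
    set N : ℝ := ((∑ A, r A : ℕ) : ℝ) with hNdef
    obtain ⟨n, hn1, hn2, hn3⟩ := rk_aux s (fun A => (r A : ℝ) / N) univ r 0 le_rfl hrs
      (by
        intro A
        rw [← hrs, ← hNdef]
        rw [div_mul_cancel₀ _ hN.ne']
        simp)
    refine ⟨n, hn1, fun T => hn2 T (mem_univ T), ?_⟩
    intro A T
    have h := hn3 A T (mem_univ T)
    rw [zero_add, card_univ] at h
    have h2 : (n A T : ℝ) * N - (r A : ℝ) * s T = ((n A T : ℝ) - (r A : ℝ) / N * s T) * N := by
      field_simp
    rw [h2, abs_mul, abs_of_pos hN]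
    exact mul_le_mul_of_nonneg_right h hN.le

end Pool.Agent.Work.MP_db9399_dp_helper29
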